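import Pool.Agent.X143.VT.Prob

/-!
# Anchored thin triangles in the hyperbolic Poisson Voronoi graph

For every intensity `lam > 0` and every homogeneous Poisson process of intensity `lam` on the
hyperbolic plane, almost surely the Voronoi graph is connected and there are no vertex `x` and no
finite `δ` such that all geodesic triangles having `x` as one of their vertices are `δ`-thin.
-/

set_option autoImplicit false

namespace Pool.Agent.Results.MP_c20824_pr.NeverThinAtVertex

open MeasureTheory UpperHalfPlane Pool.Agent.Y979.HV Pool.Agent.X143.VT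

theorem result {Ω : Type*} [MeasurableSpace Ω] (P : Measure Ω) [IsProbabilityMeasure P]
    (lam : ℝ) (hlam : 0 < lam) (Q : Ω → Set ℍ) (hQ : IsPoissonProcess P lam Q) :
    ∀ᵐ ω ∂P, (voronoiGraph (Q ω)).Connected ∧
      ∀ (x : Q ω) (δ : ℝ), ¬ ThinAt (voronoiGraph (Q ω)) x δ := by
  have h1 : ∀ n : ℕ, ∀ᵐ ω ∂P, ∃ k, ω ∈ good Q (n + 5) (1 / (1000 * ((n : ℝ) + 5))) k := by
    intro n
    apply ae_exists_good hQ hlam (by positivity)
    have : (n : ℝ) + 5 ≠ 0 := by positivity
    push_cast
    field_simp
  filter_upwards [ae_connected hQ hlam, ae_all_iff.mpr h1] with ω hc hg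
  refine ⟨hc.1, fun x δ => not_thin hc.1 (fun N => ?_) x δ⟩
  obtain ⟨k, hk⟩ := hg N
  refine ⟨N + 5, 1 / (1000 * ((N : ℝ) + 5)), k, by omega, by positivity, by omega, ?_,
    good_tmpl hk⟩
  have : (N : ℝ) + 5 ≠ 0 := by positivity
  push_cast
  field_simp

end Pool.Agent.Results.MP_c20824_pr.NeverThinAtVertex
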